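import Mathlib
import Pool.Agent.H244Z.CB.KS

set_option autoImplicit false

namespace Pool.Agent.H874Z.CA

open Set Filter Topology TopologicalSpace MeasureTheory Pool.Agent.H244Z.CB

/-- address systems: `mv n o x` is the point of the level `n` tower of `x` with address `o`. -/
structure FS (X : Type) where
  π : X → ℕ → Bool
  mv : ℕ → (ℕ → Bool) → X → X
  a1 : ∀ n o x j, π (mv n o x) j = if j < n then o j else π x j
  a2 : ∀ n n' o o' x, n ≤ n' → mv n' o' (mv n o x) = mv n' o' x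
  a3 : ∀ n x, mv n (π x) x = x
  a4 : ∀ n o o' x, (∀ j < n, o j = o' j) → mv n o x = mv n o' x

/-- extension of a finite address by `false` -/
def xt {N : ℕ} (a : Fin N → Bool) (j : ℕ) : Bool := if h : j < N then a ⟨j, h⟩ else false

namespace FS

variable {X : Type} (F : FS X)

/-- lying in a common tower -/
def R (x y : X) : Prop := ∃ n o, F.mv n o x = y

open Classical in
/-- number of points of the level `N` tower of `x` in `D` -/
noncomputable def cnt (N : ℕ) (D : Set X) (x : X) : ℕ :=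
  (Finset.univ.filter fun a : Fin N → Bool => F.mv N (xt a) x ∈ D).card

/-- density of `D` in the level `N` tower of `x` -/
noncomputable def av (N : ℕ) (D : Set X) (x : X) : ℝ := (F.cnt N D x : ℝ) / 2 ^ N

/-- flipping the bit `j` of the address -/
def fl (j : ℕ) (x : X) : X := F.mv (j + 1) (fun i => if i = j then !F.π x j else F.π x i) x

def Meas [MeasurableSpace X] : Prop := Measurable F.π ∧ ∀ n o, Measurable (F.mv n o)

def Cont [TopologicalSpace X] : Prop := Continuous F.π ∧ ∀ n o, Continuous (F.mv n o)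

/-- the partial homeomorphism `α q ↦ β q` does not expand densities -/
def Adm [TopologicalSpace X] {Q : Type} (α β : Q → X) : Prop :=
  ∀ W, IsClopen W → ∃ (O : Set X) (N : ℕ), IsClopen O ∧ (∀ q, α q ∈ W → β q ∈ O) ∧
    ∀ x, F.cnt N O x ≤ F.cnt N W x

/-- the outcome of a matching step at bit `j` on the class of `x` -/
def Vis (E : X → X → Prop) (D D' : Set X) (a δ : ℝ) (j : ℕ) (x : X) : Prop :=
  (∀ y, E x y → a + δ < F.av j D y - F.av j D' y →
    F.av j D (F.fl j y) - F.av j D' (F.fl j y) ≤ a) ∨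
  (∀ y, E x y → F.av j D y - F.av j D' y ≤ a →
    a + δ < F.av j D (F.fl j y) - F.av j D' (F.fl j y))

end FS

/-- `E` is the union of the graphs of the Borel involutions `g i` -/
def Invol {X : Type} [MeasurableSpace X] (E : X → X → Prop) (g : ℕ → X → X) : Prop :=
  (∀ i, Measurable (g i)) ∧ (∀ i x, g i (g i x) = x) ∧ ∀ x y, E x y ↔ ∃ i, g i x = y

/-- invariant compressible Borel sets -/
def Negl {X : Type} [MeasurableSpace X] (E : X → X → Prop) (J : Set X) : Prop :=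
  MeasurableSet J ∧ (∀ x y, E x y → x ∈ J → y ∈ J) ∧ Compr E J

/-- tail equivalence -/
def Et (x y : ℕ → Bool) : Prop := ∃ a b, ∀ n, x (n + a) = y (n + b)

/-- a compact model of `E` on `S` with a compressible hyperfinite remainder `A` -/
def Model {X : Type} [MeasurableSpace X] (E : X → X → Prop) (S : Set X) : Prop :=
  ∃ (K : Type) (_ : TopologicalSpace K) (_ : CompactSpace K) (_ : MetrizableSpace K)
    (_ : MeasurableSpace K) (_ : BorelSpace K) (h : ℕ → K ≃ₜ K) (Fr : K → K → Prop) (A : Set K)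
    (en : K → ℕ → ℕ) (φ : S → K),
    Equivalence Fr ∧ (∀ i z, Fr z (h i z)) ∧
    (∀ z z', Fr z z' → Relation.EqvGen (fun a b => ∃ i, h i a = b) z z') ∧
    MeasurableSet A ∧ (∀ z z', Fr z z' → z ∈ A → z' ∈ A) ∧ Compr Fr A ∧
    Measurable en ∧ InjOn en A ∧
    (∀ z ∈ A, ∀ z' ∈ A, Fr z z' ↔ ∃ N, ∀ m ≥ N, en z m = en z' m) ∧
    Measurable φ ∧ Function.Injective φ ∧ range φ = Aᶜ ∧
    ∀ x y : S, E x y ↔ Fr (φ x) (φ y)

/-- Knaster-Reichbach extension inside the full group of an address system -/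
def KRStmt : Prop :=
  ∀ (K : Type) [TopologicalSpace K] [CompactSpace K] [T2Space K] (F : FS K), F.Cont →
    ∀ u : ℕ → K → ℕ, (∀ m, Continuous (u m)) → (∀ x y, (∀ m, u m x = u m y) → x = y) →
    ∀ (Q : Type) [TopologicalSpace Q] [CompactSpace Q] (α β : Q → K), Continuous α →
      Continuous β → Function.Injective α → Function.Injective β → F.Adm α β → F.Adm β α →
      ∃ f : K ≃ₜ K, (∀ q, f (α q) = β q) ∧ ∀ x, x ∉ range α → F.R x (f x)

/-- a set covered by sets of summable density is compressible -/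
def CmpStmt : Prop :=
  ∀ (X : Type) [MeasurableSpace X] [StandardBorelSpace X] (F : FS X), F.Meas →
    ∀ (I : Set X) (D : ℕ → Set X), MeasurableSet I → (∀ x ∈ I, ∀ n o, F.mv n o x ∈ I) →
      (∀ n, MeasurableSet (D n)) → (∀ n, ∃ N, ∀ x ∈ I, F.av N (D n) x ≤ (1 / 2) ^ (n + 3)) →
      (∀ x ∈ I, ∃ n, x ∈ D n) → Compr F.R I

/-- the halving argument -/
def HalfStmt : Prop :=
  ∀ (X : Type) (F : FS X) (E : X → X → Prop), Equivalence E → (∀ n o x, E x (F.mv n o x)) →
    ∀ (D D' J : Set X) (a δ : ℝ), 0 ≤ a → a ≤ 1 → 0 < δ → δ ≤ 1 →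
      (∀ N, ∃ j ≥ N, ∀ x, x ∉ J → F.Vis E D D' a δ j x) →
      ∃ N, ∀ x, x ∉ J → (∀ y, E x y → F.av N D y - F.av N D' y ≤ a + δ) ∨
        ∀ y, E x y → a < F.av N D y - F.av N D' y

/-- tail equivalence embeds in eventual equality and is generated by homeomorphisms -/
def EtStmt : Prop :=
  (∃ en : (ℕ → Bool) → ℕ → ℕ, Measurable en ∧ Function.Injective en ∧
    ∀ x y, Et x y ↔ ∃ N, ∀ m ≥ N, en x m = en y m) ∧
  (∃ h : ℕ → (ℕ → Bool) ≃ₜ (ℕ → Bool), (∀ i x, Et x (h i x)) ∧ ∀ x y, Et x y → ∃ i, h i x = y) ∧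
  Equivalence Et

/-- matching two sets as far as possible inside a perfect matching -/
def MSStmt : Prop :=
  ∀ (X : Type) [MeasurableSpace X] [StandardBorelSpace X] (E : X → X → Prop),
    IsAperiodicCBER E → ∀ T P Q : Set X, MeasurableSet T → MeasurableSet P → MeasurableSet Q →
      (∀ x, {y | y ∈ T ∧ E x y}.Infinite) → P ⊆ T → Q ⊆ T → Disjoint P Q →
      ∃ (ι : X → X) (J : Set X), Measurable ι ∧ Negl E J ∧ (∀ x, E x (ι x)) ∧
        (∀ x ∈ T, ι x ∈ T ∧ ι (ι x) = x ∧ ι x ≠ x) ∧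
        ∀ x, x ∉ J → (∀ y ∈ P, E x y → ι y ∈ Q) ∨ ∀ y ∈ Q, E x y → ι y ∈ P

/-- a perfect matching preserving a countable colouring -/
def RSStmt : Prop :=
  ∀ (X : Type) [MeasurableSpace X] [StandardBorelSpace X] (E : X → X → Prop),
    IsAperiodicCBER E → ∀ (T : Set X) (κ : X → ℕ), MeasurableSet T → Measurable κ →
      (∀ x, {y | y ∈ T ∧ E x y}.Infinite) →
      ∃ (ι : X → X) (J : Set X), Measurable ι ∧ Negl E J ∧ (∀ x, E x (ι x)) ∧
        (∀ x ∈ T, ι x ∈ T ∧ ι (ι x) = x ∧ ι x ≠ x) ∧ ∀ x ∈ T, x ∉ J → κ (ι x) = κ x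

/-- the ideal of invariant compressible sets -/
def NeglStmt : Prop :=
  ∀ (X : Type) [MeasurableSpace X] [StandardBorelSpace X] (E : X → X → Prop),
    IsAperiodicCBER E →
      (∀ J : ℕ → Set X, (∀ n, Negl E (J n)) → Negl E (⋃ n, J n)) ∧
      (∀ J I : Set X, Negl E J → I ⊆ J → MeasurableSet I → (∀ x y, E x y → x ∈ I → y ∈ I) →
        Negl E I) ∧
      ∀ (μ : Measure X) [IsFiniteMeasure μ], ∃ Xc, Negl E Xc ∧ ∀ J, Negl E J → μ (J \ Xc) = 0

/-- three sources of compressible sets and the weakly wandering argument -/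
def WanStmt : Prop :=
  ∀ (X : Type) [MeasurableSpace X] [StandardBorelSpace X] (E : X → X → Prop),
    IsAperiodicCBER E → ∀ g : ℕ → X → X, Invol E g → ∀ F : FS X, F.Meas →
      (∀ n o x, E x (F.mv n o x)) →
      (∀ (C : Set X) (i N : ℕ), MeasurableSet C →
        Negl E {x | ∀ y, E x y → F.cnt N (g i ⁻¹' C) y < F.cnt N C y}) ∧
      (∀ (C I : Set X) (js : ℕ → ℕ), MeasurableSet C → MeasurableSet I →
        (∀ x y, E x y → x ∈ I → y ∈ I) → StrictMono js →
        (∀ k, ∀ y ∈ I, (∃ o, F.mv (js k) o y ∈ C) → ∀ o, F.mv (js k) o (F.fl (js k) y) ∉ C) →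
        Negl E {x | x ∈ I ∧ ∃ y ∈ C, E x y}) ∧
      (∀ n : ℕ, Negl E {x | ∃ y, E x y ∧ ∀ m ≥ n, F.π y (2 * m) = false}) ∧
      ∀ (μ : Measure X) [IsFiniteMeasure μ] (Xc Zs : Set X) (R : ℕ → Set X) (a : ℝ),
        MeasurableSet Xc → (∀ J, Negl E J → μ (J \ Xc) = 0) → Negl E Zs →
        (∀ M, MeasurableSet (R M)) → Antitone R → (∀ x, x ∉ Zs → ∃ M, x ∉ R M) → 0 < a →
        ∀ ε : ENNReal, 0 < ε →
          ∃ M, μ ({x | ∃ N, ∀ y, E x y → a < F.av N (R M) y} \ Xc) < ε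

/-- the compressible part has a model -/
def CptStmt : Prop :=
  ∀ (X : Type) [MeasurableSpace X] [StandardBorelSpace X] (E : X → X → Prop),
    IsAperiodicCBER E → ∀ (μ : Measure X) [IsFiniteMeasure μ] (Xc : Set X), Negl E Xc →
      ∃ S ⊆ Xc, MeasurableSet S ∧ (∀ x y, E x y → x ∈ S → y ∈ S) ∧ μ (Xc \ S) = 0 ∧ Model E S

/-- two models give a compact action realization -/
def FinStmt : Prop :=
  ∀ (X : Type) [MeasurableSpace X] [StandardBorelSpace X] (E : X → X → Prop),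
    IsAperiodicCBER E → ∀ S S' Y : Set X, MeasurableSet S → MeasurableSet S' →
      (∀ x y, E x y → x ∈ S → y ∈ S) → (∀ x y, E x y → x ∈ S' → y ∈ S') → Disjoint S S' →
      Y = S ∪ S' → Model E S → Model E S' →
      (¬ ∃ f : X → ℝ, Measurable f ∧ ∀ x ∈ Y, ∀ y ∈ Y, (E x y ↔ f x = f y)) →
      ∃ (G : Type) (_ : Group G) (_ : Countable G) (Z : Type) (_ : TopologicalSpace Z)
        (_ : CompactSpace Z) (_ : TopologicalSpace.MetrizableSpace Z) (_ : MeasurableSpace Z)
        (_ : BorelSpace Z) (_ : MulAction G Z) (_ : ContinuousConstSMul G Z) (f : Y ≃ᵐ Z),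
        ∀ a b : Y, E a b ↔ ∃ g : G, g • f a = f b

end Pool.Agent.H874Z.CA
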