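import Pool.Agent.H874Z.CA.Defs

set_option autoImplicit false

namespace Pool.Agent.H874Z.CA

open Set Filter Topology TopologicalSpace MeasureTheory Pool.Agent.H244Z.CB

theorem xt_lt {N : ℕ} (a : Fin N → Bool) {j : ℕ} (h : j < N) : xt a j = a ⟨j, h⟩ := dif_pos h

namespace FS

variable {X : Type} (F : FS X)

/-- the address of `x` in its level `N` tower -/
def adr (N : ℕ) (x : X) : Fin N → Bool := fun j => F.π x j

theorem mv_xt (N : ℕ) (o : ℕ → Bool) (x : X) :
    F.mv N (xt fun j : Fin N => o j) x = F.mv N o x := F.a4 _ _ _ _ fun _ hj => xt_lt _ hj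

theorem mv_adr (N : ℕ) (x : X) : F.mv N (xt (F.adr N x)) x = x := (F.mv_xt N _ x).trans (F.a3 N x)

theorem adr_mv (N : ℕ) (a : Fin N → Bool) (x : X) : F.adr N (F.mv N (xt a) x) = a := by
  funext j
  simp [adr, F.a1, xt]

theorem mv_mv {n n' : ℕ} (h : n ≤ n') (o o' : ℕ → Bool) (x : X) :
    F.mv n o' (F.mv n' o x) = F.mv n' (fun j => if j < n then o' j else o j) x := by
  rw [← F.a3 n' (F.mv n o' (F.mv n' o x)), F.a2 _ _ _ _ _ h, F.a2 _ _ _ _ _ le_rfl]
  refine F.a4 _ _ _ _ fun j hj => ?_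
  rw [F.a1, F.a1, if_pos hj]

theorem mv_self {n : ℕ} {o : ℕ → Bool} {x : X} (h : ∀ j < n, o j = F.π x j) : F.mv n o x = x := by
  rw [F.a4 _ _ _ _ h, F.a3]

theorem mv_up {n n' : ℕ} (h : n ≤ n') (o : ℕ → Bool) (x : X) :
    F.mv n o x = F.mv n' (fun j => if j < n then o j else F.π x j) x := by
  rw [← F.mv_mv h, F.a3]

theorem mv_back (n : ℕ) (o : ℕ → Bool) (x : X) : F.mv n (F.π x) (F.mv n o x) = x := by
  rw [F.a2 _ _ _ _ _ le_rfl, F.a3]

theorem R_equiv : Equivalence F.R := by
  refine ⟨fun x => ⟨0, _, F.a3 0 x⟩, ?_, ?_⟩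
  · rintro x _ ⟨n, o, rfl⟩
    exact ⟨n, _, F.mv_back n o x⟩
  · rintro x _ _ ⟨n, o, rfl⟩ ⟨n', o', rfl⟩
    rcases le_total n n' with h | h
    · exact ⟨n', o', (F.a2 _ _ _ _ _ h).symm⟩
    · exact ⟨n, _, (F.mv_mv h _ _ _).symm⟩

theorem π_fl (j : ℕ) (x : X) (i : ℕ) : F.π (F.fl j x) i = if i = j then !F.π x j else F.π x i := by
  rw [fl, F.a1]
  split_ifs with h1 h2 h2
  · rfl
  · rfl
  · omega
  · rfl

theorem fl_fl (j : ℕ) (x : X) : F.fl j (F.fl j x) = x := by
  conv_lhs => rw [fl]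
  rw [show F.fl j x = F.mv (j + 1) _ x from rfl, F.a2 _ _ _ _ _ le_rfl]
  refine F.mv_self fun i _ => ?_
  change (if i = j then !F.π (F.fl j x) j else F.π (F.fl j x) i) = _
  rw [π_fl, π_fl]
  split_ifs with h1 <;> simp_all

theorem mv_fl {j N : ℕ} (h : j < N) (o : ℕ → Bool) (x : X) : F.mv N o (F.fl j x) = F.mv N o x :=
  F.a2 _ _ _ _ _ h

theorem cnt_mv {n N : ℕ} (h : n ≤ N) (D : Set X) (o : ℕ → Bool) (x : X) :
    F.cnt N D (F.mv n o x) = F.cnt N D x := by
  unfold cnt
  congr 1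
  ext a
  simp only [Finset.mem_filter, F.a2 _ _ _ _ _ h]

theorem av_mv {n N : ℕ} (h : n ≤ N) (D : Set X) (o : ℕ → Bool) (x : X) :
    F.av N D (F.mv n o x) = F.av N D x := by rw [av, av, F.cnt_mv h]

theorem cnt_congr {N : ℕ} {D D' : Set X} {x x' : X}
    (h : ∀ o, F.mv N o x ∈ D ↔ F.mv N o x' ∈ D') : F.cnt N D x = F.cnt N D' x' := by
  classical
  simp only [cnt, h]

theorem cnt_le_of {N : ℕ} {D D' : Set X} {x x' : X}
    (h : ∀ o, F.mv N o x ∈ D → F.mv N o x' ∈ D') : F.cnt N D x ≤ F.cnt N D' x' := by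
  classical
  refine Finset.card_le_card fun a => ?_
  simp only [Finset.mem_filter, Finset.mem_univ, true_and]
  exact h _

theorem cnt_mono (N : ℕ) {D D' : Set X} (h : D ⊆ D') (x : X) : F.cnt N D x ≤ F.cnt N D' x :=
  F.cnt_le_of fun _ ho => h ho

theorem cnt_empty (N : ℕ) (x : X) : F.cnt N ∅ x = 0 := by simp [cnt]

theorem cnt_univ (N : ℕ) (x : X) : F.cnt N univ x = 2 ^ N := by simp [cnt]

theorem cnt_pos {N : ℕ} {D : Set X} {x : X} : 0 < F.cnt N D x ↔ ∃ o, F.mv N o x ∈ D := by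
  classical
  rw [cnt, Finset.card_pos]
  constructor
  · rintro ⟨a, ha⟩
    exact ⟨_, (Finset.mem_filter.1 ha).2⟩
  · rintro ⟨o, ho⟩
    exact ⟨fun j => o j, Finset.mem_filter.2 ⟨Finset.mem_univ _, by rwa [F.mv_xt]⟩⟩

theorem cnt_union_inter (N : ℕ) (D D' : Set X) (x : X) :
    F.cnt N (D ∪ D') x + F.cnt N (D ∩ D') x = F.cnt N D x + F.cnt N D' x := by
  classical
  simp only [cnt, Finset.card_filter, ← Finset.sum_add_distrib]
  refine Finset.sum_congr rfl fun a _ => ?_
  by_cases h : F.mv N (xt a) x ∈ D <;> by_cases h' : F.mv N (xt a) x ∈ D' <;> simp [h, h']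

theorem cnt_union (N : ℕ) {D D' : Set X} (h : Disjoint D D') (x : X) :
    F.cnt N (D ∪ D') x = F.cnt N D x + F.cnt N D' x := by
  rw [← F.cnt_union_inter, h.inter_eq, F.cnt_empty, add_zero]

theorem cnt_union_le (N : ℕ) (D D' : Set X) (x : X) :
    F.cnt N (D ∪ D') x ≤ F.cnt N D x + F.cnt N D' x := by
  rw [← F.cnt_union_inter]
  omega

theorem cnt_diff (N : ℕ) {D D' : Set X} (h : D' ⊆ D) (x : X) :
    F.cnt N (D \ D') x + F.cnt N D' x = F.cnt N D x := by
  rw [← F.cnt_union N disjoint_sdiff_left, sdiff_union_of_subset h]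

theorem cnt_compl (N : ℕ) (D : Set X) (x : X) : F.cnt N Dᶜ x + F.cnt N D x = 2 ^ N := by
  rw [← F.cnt_union N disjoint_compl_left, compl_union_self, F.cnt_univ]

theorem av_nonneg (N : ℕ) (D : Set X) (x : X) : 0 ≤ F.av N D x := by
  unfold av
  positivity

theorem av_le_one (N : ℕ) (D : Set X) (x : X) : F.av N D x ≤ 1 := by
  rw [av, div_le_one (by positivity)]
  exact_mod_cast (F.cnt_mono N (subset_univ D) x).trans (F.cnt_univ N x).le

theorem av_le_iff {N : ℕ} {D D' : Set X} {x x' : X} :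
    F.av N D x ≤ F.av N D' x' ↔ F.cnt N D x ≤ F.cnt N D' x' := by
  rw [av, av, div_le_div_iff_of_pos_right (by positivity), Nat.cast_le]

theorem cnt_succ (N : ℕ) (D : Set X) (x : X) :
    F.cnt (N + 1) D x = F.cnt N D x + F.cnt N D (F.fl N x) := by
  classical
  have key : ∀ (y : X) (a : Fin N → Bool), (∀ o, F.mv (N + 1) o y = F.mv (N + 1) o x) →
      F.mv N (xt a) y = F.mv (N + 1) (xt (Fin.snoc a (F.π y N) : Fin (N + 1) → Bool)) x := by
    intro y a hy
    rw [← hy, F.mv_up (Nat.le_succ N)]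
    refine F.a4 _ _ _ _ fun j hj => ?_
    rw [xt_lt _ hj]
    split_ifs with h
    · rw [xt_lt _ h]
      exact (Fin.snoc_castSucc (α := fun _ => Bool) _ a ⟨j, h⟩).symm
    · obtain rfl : j = N := by omega
      exact (Fin.snoc_last (α := fun _ => Bool) _ a).symm
  simp only [cnt, Finset.card_filter]
  rw [← (Fin.snocEquiv fun _ => Bool).sum_comp, Fintype.sum_prod_type, Fintype.sum_bool]
  simp only [key x _ fun _ => rfl, key (F.fl N x) _ (F.mv_fl (Nat.lt_succ_self N) · x), π_fl,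
    if_true]
  cases F.π x N
  · exact add_comm _ _
  · rfl

theorem av_succ (N : ℕ) (D : Set X) (x : X) :
    F.av (N + 1) D x = (F.av N D x + F.av N D (F.fl N x)) / 2 := by
  simp only [av, F.cnt_succ]
  push_cast
  field_simp
  try ring

/-- inequalities between densities on an invariant set persist at higher levels -/
theorem le_up {I D D' : Set X} (hI : ∀ x ∈ I, ∀ n o, F.mv n o x ∈ I) {N N' : ℕ} (h : N ≤ N')
    {δ : ℝ} (hx : ∀ x ∈ I, F.av N D x ≤ F.av N D' x + δ) :
    ∀ x ∈ I, F.av N' D x ≤ F.av N' D' x + δ := by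
  induction h with
  | refl => exact hx
  | @step m _ ih =>
    intro x h1
    have := ih x h1
    have := ih (F.fl m x) (hI x h1 _ _)
    rw [F.av_succ, F.av_succ]
    linarith

theorem av_empty (N : ℕ) (x : X) : F.av N ∅ x = 0 := by simp [av, cnt_empty]

theorem cnt_le_up {I D D' : Set X} (hI : ∀ x ∈ I, ∀ n o, F.mv n o x ∈ I) {N N' : ℕ} (h : N ≤ N')
    (hx : ∀ x ∈ I, F.cnt N D x ≤ F.cnt N D' x) : ∀ x ∈ I, F.cnt N' D x ≤ F.cnt N' D' x :=
  fun x h1 => F.av_le_iff.1 (by
    simpa using F.le_up hI h (δ := 0) (fun x h => by simpa using F.av_le_iff.2 (hx x h)) x h1)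

/-- the colouring of the level `N` tower -/
def pat {β : Type} (N : ℕ) (c : X → β) (x : X) : (Fin N → Bool) → β := fun a => c (F.mv N (xt a) x)

theorem pat_mv {β : Type} (N : ℕ) (c : X → β) (o : ℕ → Bool) (x : X) :
    F.pat N c (F.mv N o x) = F.pat N c x := by
  funext a
  simp only [pat, F.a2 _ _ _ _ _ le_rfl]

theorem pat_adr {β : Type} (N : ℕ) (c : X → β) (x : X) : F.pat N c x (F.adr N x) = c x := by
  rw [pat, F.mv_adr]

/-- permuting each tower according to its colouring -/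
def prm {β : Type} (N : ℕ) (c : X → β) (s : ((Fin N → Bool) → β) → Equiv.Perm (Fin N → Bool))
    (x : X) : X := F.mv N (xt (s (F.pat N c x) (F.adr N x))) x

theorem prm_mv {β : Type} (N : ℕ) (c : X → β)
    (s : ((Fin N → Bool) → β) → Equiv.Perm (Fin N → Bool)) (a : Fin N → Bool) (x : X) :
    F.prm N c s (F.mv N (xt a) x) = F.mv N (xt (s (F.pat N c x) a)) x := by
  rw [prm, pat_mv, adr_mv, F.a2 _ _ _ _ _ le_rfl]

theorem prm_inv {β : Type} (N : ℕ) (c : X → β)
    (s : ((Fin N → Bool) → β) → Equiv.Perm (Fin N → Bool)) (x : X) :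
    F.prm N c (fun p => (s p).symm) (F.prm N c s x) = x := by
  rw [prm.eq_1 F N c s, prm_mv, Equiv.symm_apply_apply, mv_adr]

theorem prm_inv' {β : Type} (N : ℕ) (c : X → β)
    (s : ((Fin N → Bool) → β) → Equiv.Perm (Fin N → Bool)) (x : X) :
    F.prm N c s (F.prm N c (fun p => (s p).symm) x) = x :=
  F.prm_inv N c (fun p => (s p).symm) x

theorem cnt_prm {β : Type} (N : ℕ) (c : X → β)
    (s : ((Fin N → Bool) → β) → Equiv.Perm (Fin N → Bool)) (D : Set X) (x : X) :
    F.cnt N (F.prm N c s ⁻¹' D) x = F.cnt N D x := by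
  classical
  simp only [cnt, Finset.card_filter, mem_preimage, prm_mv]
  exact Equiv.sum_comp (s (F.pat N c x)) fun a => if F.mv N (xt a) x ∈ D then 1 else 0

section meas

variable [MeasurableSpace X] {F}

theorem Meas.mv (hF : F.Meas) (n : ℕ) {Z : Type} [MeasurableSpace Z] {O : Z → ℕ → Bool}
    (hO : Measurable O) {f : Z → X} (hf : Measurable f) :
    Measurable fun z => F.mv n (O z) (f z) := by
  have : (fun z => F.mv n (O z) (f z)) = fun z => F.mv n (xt fun j : Fin n => O z j) (f z) :=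
    funext fun z => (F.mv_xt _ _ _).symm
  rw [this]
  exact meas_index (c := fun z (j : Fin n) => O z j) (F := fun a z => F.mv n (xt a) (f z))
    (measurable_pi_lambda _ fun j => (measurable_pi_apply _).comp hO) fun a => (hF.2 _ _).comp hf

theorem Meas.fl (hF : F.Meas) (j : ℕ) : Measurable (F.fl j) := by
  refine hF.mv (j + 1) (measurable_pi_lambda _ fun i => ?_) measurable_id
  split_ifs
  · exact (measurable_from_top (f := fun b : Bool => !b)).comp ((measurable_pi_apply _).comp hF.1)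
  · exact (measurable_pi_apply _).comp hF.1

theorem Meas.adr (hF : F.Meas) (N : ℕ) : Measurable (F.adr N) :=
  measurable_pi_lambda _ fun _ => (measurable_pi_apply _).comp hF.1

theorem Meas.pat (hF : F.Meas) {β : Type} [MeasurableSpace β] (N : ℕ) {c : X → β}
    (hc : Measurable c) : Measurable (F.pat N c) :=
  measurable_pi_lambda _ fun _ => hc.comp (hF.2 _ _)

theorem Meas.prm (hF : F.Meas) {β : Type} [MeasurableSpace β] [Countable β]
    [MeasurableSingletonClass β] (N : ℕ) {c : X → β} (hc : Measurable c)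
    (s : ((Fin N → Bool) → β) → Equiv.Perm (Fin N → Bool)) : Measurable (F.prm N c s) :=
  meas_index (c := fun x => (F.pat N c x, F.adr N x)) (F := fun p x => F.mv N (xt (s p.1 p.2)) x)
    ((hF.pat N hc).prodMk (hF.adr N)) fun _ => hF.2 _ _

theorem Meas.cnt (hF : F.Meas) (N : ℕ) {D : Set X} (hD : MeasurableSet D) :
    Measurable (F.cnt N D) := by
  classical
  have : F.cnt N D = fun x => ∑ a : Fin N → Bool, if F.mv N (xt a) x ∈ D then 1 else 0 :=
    funext fun x => Finset.card_filter _ _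
  rw [this]
  exact Finset.measurable_sum _ fun a _ =>
    Measurable.ite (hF.2 _ _ hD) measurable_const measurable_const

theorem Meas.av (hF : F.Meas) (N : ℕ) {D : Set X} (hD : MeasurableSet D) :
    Measurable (F.av N D) :=
  ((measurable_from_top (f := fun n : ℕ => (n : ℝ) / 2 ^ N)).comp (hF.cnt N hD) :)

/-- a tower preserving Borel bijection mapping `P` into `Q` on the towers where this is possible -/
theorem Meas.le_perm (hF : F.Meas) (N : ℕ) {P Q : Set X} (hP : MeasurableSet P)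
    (hQ : MeasurableSet Q) :
    ∃ h h' : X → X, Measurable h ∧ Measurable h' ∧ (∀ x, h' (h x) = x) ∧ (∀ x, h (h' x) = x) ∧
      (∀ x, ∃ o, h x = F.mv N o x) ∧ (∀ x, ∃ o, h' x = F.mv N o x) ∧
      (∀ D x, F.cnt N (h ⁻¹' D) x = F.cnt N D x) ∧ (∀ D x, F.cnt N (h' ⁻¹' D) x = F.cnt N D x) ∧
      ∀ x, F.cnt N P x ≤ F.cnt N Q x → x ∈ P → h x ∈ Q := by
  classical
  have hex : ∀ p : (Fin N → Bool) → Bool × Bool, ∃ s : Equiv.Perm (Fin N → Bool),
      (Finset.univ.filter fun a => (p a).1 = true).card ≤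
        (Finset.univ.filter fun a => (p a).2 = true).card → ∀ a, (p a).1 = true → (p (s a)).2 = true := by
    intro p
    by_cases h : (Finset.univ.filter fun a => (p a).1 = true).card ≤
        (Finset.univ.filter fun a => (p a).2 = true).card
    · obtain ⟨t, ht, htc⟩ := Finset.exists_subset_card_eq h
      obtain ⟨s, hs⟩ := Equiv.Perm.exists_map_finset_eq _ _ htc.symm
      refine ⟨s, fun _ a ha => ?_⟩
      have : s a ∈ t := hs ▸ Finset.mem_map_of_mem _ (Finset.mem_filter.2 ⟨Finset.mem_univ _, ha⟩)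
      exact (Finset.mem_filter.1 (ht this)).2
    · exact ⟨1, fun h' => absurd h' h⟩
  choose s hs using hex
  let c : X → Bool × Bool := fun x => (decide (x ∈ P), decide (x ∈ Q))
  have hc : Measurable c := by
    refine Measurable.prodMk (measurable_to_bool ?_) (measurable_to_bool ?_)
    · convert hP using 1
      ext x
      simp
    · convert hQ using 1
      ext x
      simp
  refine ⟨F.prm N c s, F.prm N c fun p => (s p).symm, hF.prm N hc _, hF.prm N hc _, F.prm_inv N c s,
    F.prm_inv' N c s, fun x => ⟨_, rfl⟩, fun x => ⟨_, rfl⟩, F.cnt_prm N c _, F.cnt_prm N c _,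
    fun x hx hxP => ?_⟩
  have := hs (F.pat N c x) (by simpa [FS.pat, c, FS.cnt] using hx) (F.adr N x)
    (by rw [F.pat_adr]; simpa [c] using hxP)
  simpa [FS.pat, c, FS.prm] using this

end meas

section cont

variable [TopologicalSpace X] {F}

theorem cont_index {Z Y ι : Type} [TopologicalSpace Z] [TopologicalSpace Y] [TopologicalSpace ι]
    [DiscreteTopology ι] {c : Z → ι} (hc : Continuous c) {G : ι → Z → Y}
    (hG : ∀ i, Continuous (G i)) : Continuous fun z => G (c z) z :=
  (continuous_prod_of_discrete_left (f := fun p : ι × Z => G p.1 p.2)).2 hG |>.comp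
    (hc.prodMk continuous_id)

theorem Cont.mv (hF : F.Cont) (n : ℕ) {Z : Type} [TopologicalSpace Z] {O : Z → ℕ → Bool}
    (hO : Continuous O) {f : Z → X} (hf : Continuous f) :
    Continuous fun z => F.mv n (O z) (f z) := by
  have : (fun z => F.mv n (O z) (f z)) = fun z => F.mv n (xt fun j : Fin n => O z j) (f z) :=
    funext fun z => (F.mv_xt _ _ _).symm
  rw [this]
  exact cont_index (c := fun z (j : Fin n) => O z j) (G := fun a z => F.mv n (xt a) (f z))
    (continuous_pi fun j => (continuous_apply _).comp hO) fun a => (hF.2 _ _).comp hf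

theorem Cont.adr (hF : F.Cont) (N : ℕ) : Continuous (F.adr N) :=
  continuous_pi fun _ => (continuous_apply _).comp hF.1

theorem Cont.pat (hF : F.Cont) {β : Type} [TopologicalSpace β] (N : ℕ) {c : X → β}
    (hc : Continuous c) : Continuous (F.pat N c) :=
  continuous_pi fun _ => hc.comp (hF.2 _ _)

theorem Cont.prm (hF : F.Cont) {β : Type} [TopologicalSpace β] [DiscreteTopology β] (N : ℕ)
    {c : X → β} (hc : Continuous c) (s : ((Fin N → Bool) → β) → Equiv.Perm (Fin N → Bool)) :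
    Continuous (F.prm N c s) :=
  cont_index (c := fun x => (F.pat N c x, F.adr N x)) (G := fun p x => F.mv N (xt (s p.1 p.2)) x)
    ((hF.pat N hc).prodMk (hF.adr N)) fun _ => hF.2 _ _

theorem Cont.cnt (hF : F.Cont) (N : ℕ) {D : Set X} (hD : IsClopen D) :
    Continuous (F.cnt N D) := by
  classical
  have : F.cnt N D = fun x => ∑ a : Fin N → Bool, if F.mv N (xt a) x ∈ D then 1 else 0 :=
    funext fun x => Finset.card_filter _ _
  rw [this]
  refine continuous_finsetSum _ fun a _ => Continuous.if ?_ continuous_const continuous_const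
  rw [(show IsClopen {x | F.mv N (xt a) x ∈ D} from hD.preimage (hF.2 _ _)).frontier_eq]
  simp

end cont

end FS

end Pool.Agent.H874Z.CA
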